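import Pool.Agent.H97.RK.Targets

/-!
# MP_c62aed_lc, RandomSETH, row CLO: the closure
-/

set_option autoImplicit false

open Finset Pool.Agent.H97.RK

namespace Pool.Agent.H42.RKS

theorem pf_CLO : T_CLO := by
  intro n k m F j t d e hX hje y A
  classical
  have main : ∀ (N : ℕ) (W : Finset (Fin n)) (J : Finset (Fin m)),
      (∀ c ∈ J, ∀ i, (F c i).1 ∈ A ∪ W) → (∀ c ∈ J, Al F y (A \ W) c) →
      W.card ≤ j * J.card → J.card < t → A.card + e + d ≤ n → t ≤ J.card + N →
      ∃ (W' : Finset (Fin n)) (J' : Finset (Fin m)), W ⊆ W' ∧ J ⊆ J' ∧
        (∀ c ∈ J', ∀ i, (F c i).1 ∈ A ∪ W') ∧ (∀ c ∈ J', Al F y (A \ W') c) ∧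
        W'.card ≤ j * J'.card ∧ J'.card < t ∧ (∀ c ∈ J', c ∉ J → Al F y A c) ∧
        ∀ c, c ∉ J' → Al F y A c → j < out F c (A ∪ W') := by
    intro N
    induction N with
    | zero =>
      intro W J h1 h2 h3 h4 h5 h6
      omega
    | succ N ih =>
      intro W J h1 h2 h3 h4 h5 h6
      by_cases hend : ∀ c, c ∉ J → Al F y A c → j < out F c (A ∪ W)
      · exact ⟨W, J, Finset.Subset.refl _, Finset.Subset.refl _, h1, h2, h3, h4,
          fun c hc hc' => absurd hc hc', hend⟩
      · push Not at hend
        obtain ⟨c, hcJ, hcA, hco⟩ := hend
        set W1 : Finset (Fin n) := W ∪ ((univ.image fun i => (F c i).1) \ A) with hW1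
        set J1 : Finset (Fin m) := insert c J with hJ1
        have hWW1 : W ⊆ W1 := Finset.subset_union_left
        have hJJ1 : J ⊆ J1 := Finset.subset_insert _ _
        have hAW : A ∪ W ⊆ A ∪ W1 := Finset.union_subset_union_right hWW1
        have g1 : ∀ c' ∈ J1, ∀ i, (F c' i).1 ∈ A ∪ W1 := by
          intro c' hc' i
          rw [hJ1, Finset.mem_insert] at hc'
          rcases hc' with rfl | hc'
          · by_cases hA : (F c' i).1 ∈ A
            · exact Finset.mem_union_left _ hA
            · exact Finset.mem_union_right _ (Finset.mem_union_right _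
                (Finset.mem_sdiff.2 ⟨Finset.mem_image_of_mem _ (Finset.mem_univ _), hA⟩))
          · exact hAW (h1 c' hc' i)
        have g2 : ∀ c' ∈ J1, Al F y (A \ W1) c' := by
          intro c' hc' i hi
          rw [hJ1, Finset.mem_insert] at hc'
          rw [Finset.mem_sdiff] at hi
          rcases hc' with rfl | hc'
          · exact hcA i hi.1
          · exact h2 c' hc' i (Finset.mem_sdiff.2 ⟨hi.1, fun h => hi.2 (hWW1 h)⟩)
        have hcardJ : J1.card = J.card + 1 := Finset.card_insert_of_notMem hcJ
        have g3 : W1.card ≤ j * J1.card := by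
          have e1 : W1 ⊆ W ∪ ((univ.filter fun i => (F c i).1 ∉ A ∪ W).image
              fun i => (F c i).1) := by
            intro u hu
            rw [hW1, Finset.mem_union] at hu
            rcases hu with hu | hu
            · exact Finset.mem_union_left _ hu
            · rw [Finset.mem_sdiff, Finset.mem_image] at hu
              obtain ⟨⟨i, _, rfl⟩, hA⟩ := hu
              by_cases hW : (F c i).1 ∈ W
              · exact Finset.mem_union_left _ hW
              · refine Finset.mem_union_right _ (Finset.mem_image.2 ⟨i, ?_, rfl⟩)
                rw [Finset.mem_filter]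
                refine ⟨Finset.mem_univ _, fun h => ?_⟩
                rcases Finset.mem_union.1 h with h | h
                · exact hA h
                · exact hW h
          have e2 : W1.card ≤ W.card + out F c (A ∪ W) :=
            (Finset.card_le_card e1).trans ((Finset.card_union_le _ _).trans
              (Nat.add_le_add_left Finset.card_image_le _))
          rw [hcardJ, Nat.mul_succ]
          omega
        have g4 : J1.card < t := by
          by_contra hge
          have hJt : J1.card = t := by omega
          have k1 : W1.card ≤ e := by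
            calc W1.card ≤ j * J1.card := g3
              _ = j * t := by rw [hJt]
              _ ≤ e := hje
          have k2 : Disjoint (A \ W1) W1 := Finset.sdiff_disjoint
          have k3 : (A \ W1).card ≤ A.card := Finset.card_le_card Finset.sdiff_subset
          have k4 := hX y (A \ W1) W1 k2 k1 (by omega)
          have k5 : J1 ⊆ univ.filter fun c => (∀ i, (F c i).1 ∈ A \ W1 ∪ W1) ∧
              Al F y (A \ W1) c := by
            intro c' hc'
            rw [Finset.mem_filter]
            refine ⟨Finset.mem_univ _, fun i => ?_, g2 c' hc'⟩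
            rw [Finset.sdiff_union_self_eq_union]
            exact g1 c' hc' i
          have k6 := Finset.card_le_card k5
          have k7 : J1.card < t := lt_of_le_of_lt (by
            refine k6.trans (le_of_eq ?_)
            congr) k4
          omega
        obtain ⟨W', J', a1, a2, a3, a4, a5, a6, a7, a8⟩ :=
          ih W1 J1 g1 g2 g3 g4 h5 (by omega)
        refine ⟨W', J', hWW1.trans a1, hJJ1.trans a2, a3, a4, a5, a6, fun c' hc' hn => ?_, a8⟩
        by_cases hcc : c' = c
        · rw [hcc]
          exact hcA
        · refine a7 c' hc' fun h => ?_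
          rw [hJ1, Finset.mem_insert] at h
          rcases h with h | h
          · exact hcc h
          · exact hn h
  intro W J h1 h2 h3 h4 h5
  exact main t W J h1 h2 h3 h4 h5 (by omega)

end Pool.Agent.H42.RKS
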