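import Pool.Agent.H97.RK.Targets

/-!
# MP_c62aed_lc, RandomSETH, row FIX: representatives
-/

set_option autoImplicit false

open Finset Pool.Agent.H97.RK

namespace Pool.Agent.H42.RKS

theorem pf_FIX : T_FIX := by
  intro n k m F j s₀ hX y B v S hS hout
  classical
  let t : {c // c ∈ S} → Finset (Fin n) := fun c => (univ.image fun i => (F c.1 i).1) \ B
  have hall : ∀ s : Finset {c // c ∈ S}, s.card ≤ (s.biUnion t).card := by
    intro s
    by_contra hlt
    rw [not_le] at hlt
    have hs1 : 1 ≤ s.card := by omega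
    have hs2 : s.card ≤ s₀ := by
      have h1 : s.card ≤ Fintype.card {c // c ∈ S} := Finset.card_le_univ s
      rw [Fintype.card_coe] at h1
      exact h1.trans hS
    have hU : (insert v (s.biUnion t)).card ≤ s.card :=
      (Finset.card_insert_le _ _).trans hlt
    have h2 := hX (insert v (s.biUnion t)) s.card hs1 hs2 hU
    have h3 : s.map (Function.Embedding.subtype _) ⊆
        univ.filter fun c => j ≤ inn F c (insert v (s.biUnion t)) := by
      intro c hc
      rw [Finset.mem_map] at hc
      obtain ⟨c, hc, rfl⟩ := hc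
      rw [Finset.mem_filter]
      refine ⟨Finset.mem_univ _, ?_⟩
      refine (hout c.1 c.2).le.trans ?_
      unfold out inn
      refine Finset.card_le_card fun i hi => ?_
      rw [Finset.mem_filter] at hi ⊢
      refine ⟨Finset.mem_univ _, ?_⟩
      rw [Finset.mem_insert]
      by_cases hv : (F c.1 i).1 = v
      · exact Or.inl hv
      · right
        rw [Finset.mem_biUnion]
        refine ⟨c, hc, Finset.mem_sdiff.2 ⟨Finset.mem_image.2 ⟨i, Finset.mem_univ _, rfl⟩, ?_⟩⟩
        intro hB
        exact hi.2 (Finset.mem_erase.2 ⟨hv, hB⟩)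
    have h4 := Finset.card_le_card h3
    rw [Finset.card_map] at h4
    omega
  obtain ⟨f, hf, hft⟩ := (Finset.all_card_le_biUnion_card_iff_exists_injective t).1 hall
  have hi : ∀ c : {c // c ∈ S}, ∃ i, (F c.1 i).1 = f c := by
    intro c
    have h1 := (Finset.mem_sdiff.1 (hft c)).1
    rw [Finset.mem_image] at h1
    obtain ⟨i, _, hi⟩ := h1
    exact ⟨i, hi⟩
  choose i hi using hi
  have hB : ∀ c, f c ∉ B := fun c => (Finset.mem_sdiff.1 (hft c)).2
  refine ⟨fun u => if h : ∃ c, f c = u then (F h.choose.1 (i h.choose)).2 else y u,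
    fun u hu => ?_, fun c hc => ?_, ?_⟩
  · have h : ¬ ∃ c, f c = u := by
      rintro ⟨c, rfl⟩
      exact hB c hu
    simp only [dif_neg h]
  · refine ⟨i ⟨c, hc⟩, ?_, ?_⟩
    · have h1 := hi ⟨c, hc⟩
      change (F c (i ⟨c, hc⟩)).1 = _ at h1
      rw [h1]
      exact hB _
    · have h1 := hi ⟨c, hc⟩
      change (F c (i ⟨c, hc⟩)).1 = _ at h1
      rw [h1]
      have h : ∃ c', f c' = f ⟨c, hc⟩ := ⟨_, rfl⟩
      beta_reduce
      rw [dif_pos h]
      have h2 : h.choose = ⟨c, hc⟩ := hf h.choose_spec
      rw [h2]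
  · unfold dst
    have h1 : (univ.filter fun u => (if h : ∃ c, f c = u then (F h.choose.1 (i h.choose)).2
        else y u) ≠ y u) ⊆ univ.image f := by
      intro u hu
      rw [Finset.mem_filter] at hu
      by_contra hn
      have h : ¬ ∃ c, f c = u := by
        rintro ⟨c, rfl⟩
        exact hn (Finset.mem_image_of_mem _ (Finset.mem_univ _))
      rw [dif_neg h] at hu
      exact hu.2 rfl
    refine (Finset.card_le_card h1).trans (Finset.card_image_le.trans ?_)
    rw [Finset.card_univ, Fintype.card_coe]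

end Pool.Agent.H42.RKS
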